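import Mathlib
import Pool.Agent.helper62.Col.Asym

/-!
# The reciprocals of the periodic integers of the 3x+1 map

`∑ 1 / |n|` over periodic integers with `|n| ≥ N` is `O(N ^ (-1/20))`.
-/

set_option autoImplicit false

namespace Pool.Agent.helper90.CL

open Pool.Agent.helper62.Col

/-- the number of elements of a finite set of periodic integers of absolute value at most `x` -/
theorem card_le : ∃ C : ℝ, 0 < C ∧ ∀ (F : Finset ℤ), (∀ n ∈ F, n ∈ Function.periodicPts T) →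
    ∀ x : ℝ, 1 ≤ x → (∀ n ∈ F, |(n : ℝ)| ≤ x) → (F.card : ℝ) ≤ C * x ^ (19 / 20 : ℝ) := by
  obtain ⟨C, hC, h⟩ := count_real (19 / 20) kap_lt
  refine ⟨C, hC, fun F hF x hx hle => ?_⟩
  refine le_trans ?_ (h x hx)
  have h1 : (F : Set ℤ) ⊆ PS x := fun n hn => ⟨hF n hn, hle n hn⟩
  have h2 := Set.ncard_le_ncard h1 (PS_finite x)
  rw [Set.ncard_coe_finset] at h2
  exact_mod_cast h2

theorem tail_dyadic : ∃ C : ℝ, 0 < C ∧ ∀ (F : Finset ℤ), (∀ n ∈ F, n ∈ Function.periodicPts T) →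
    ∀ N : ℝ, 1 ≤ N → ∀ J : ℕ, (∀ n ∈ F, N ≤ |(n : ℝ)|) → (∀ n ∈ F, |(n : ℝ)| < 2 ^ J * N) →
    ∑ n ∈ F, 1 / |(n : ℝ)| ≤
      C * N ^ (-(1 / 20) : ℝ) * ∑ j ∈ Finset.range J, ((2 : ℝ) ^ (-(1 / 20) : ℝ)) ^ j := by
  obtain ⟨C, hC, h⟩ := card_le
  refine ⟨C * 2 ^ (19 / 20 : ℝ), by positivity, fun F hF N hN J => ?_⟩
  induction J generalizing F with
  | zero =>
    intro h1 h2
    have : F = ∅ := by
      rw [Finset.eq_empty_iff_forall_notMem]
      intro n hn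
      have := h1 n hn
      have := h2 n hn
      simp at this
      linarith
    subst this
    simp
  | succ J ih =>
    intro h1 h2
    classical
    rw [← Finset.sum_filter_add_sum_filter_not F (fun n : ℤ => |(n : ℝ)| < 2 ^ J * N),
      Finset.sum_range_succ, mul_add]
    apply add_le_add
    · apply ih
      · intro n hn
        exact hF n (Finset.mem_filter.1 hn).1
      · intro n hn
        exact h1 n (Finset.mem_filter.1 hn).1
      · intro n hn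
        exact (Finset.mem_filter.1 hn).2
    · have hN0 : (0 : ℝ) < N := by linarith
      have hJ : (0 : ℝ) < 2 ^ J * N := by positivity
      have hcard : (((F.filter fun n : ℤ => ¬ |(n : ℝ)| < 2 ^ J * N).card : ℕ) : ℝ) ≤
          C * (2 ^ (J + 1) * N) ^ (19 / 20 : ℝ) := by
        apply h
        · intro n hn
          exact hF n (Finset.mem_filter.1 hn).1
        · have : (1 : ℝ) ≤ 2 ^ (J + 1) := one_le_pow₀ (by norm_num)
          nlinarith
        · intro n hn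
          exact (h2 n (Finset.mem_filter.1 hn).1).le
      calc ∑ n ∈ F.filter (fun n : ℤ => ¬ |(n : ℝ)| < 2 ^ J * N), 1 / |(n : ℝ)|
          ≤ ∑ n ∈ F.filter (fun n : ℤ => ¬ |(n : ℝ)| < 2 ^ J * N), 1 / (2 ^ J * N) := by
            apply Finset.sum_le_sum
            intro n hn
            have := (Finset.mem_filter.1 hn).2
            push Not at this
            exact one_div_le_one_div_of_le hJ this
        _ = ((F.filter fun n : ℤ => ¬ |(n : ℝ)| < 2 ^ J * N).card : ℝ) * (1 / (2 ^ J * N)) := by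
            rw [Finset.sum_const, nsmul_eq_mul]
        _ ≤ C * (2 ^ (J + 1) * N) ^ (19 / 20 : ℝ) * (1 / (2 ^ J * N)) := by
            gcongr
        _ = C * 2 ^ (19 / 20 : ℝ) * N ^ (-(1 / 20) : ℝ) * ((2 : ℝ) ^ (-(1 / 20) : ℝ)) ^ J := by
            have e1 : ((2 : ℝ) ^ (J + 1) * N) = 2 * (2 ^ J * N) := by ring
            rw [e1, Real.mul_rpow (by norm_num) hJ.le]
            have e2 : (2 ^ J * N) ^ (19 / 20 : ℝ) * (1 / (2 ^ J * N)) =
                (2 ^ J * N) ^ (-(1 / 20) : ℝ) := by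
              rw [one_div, ← Real.rpow_neg_one, ← Real.rpow_add hJ]
              norm_num
            have e3 : (2 ^ J * N) ^ (-(1 / 20) : ℝ) =
                ((2 : ℝ) ^ (-(1 / 20) : ℝ)) ^ J * N ^ (-(1 / 20) : ℝ) := by
              rw [Real.mul_rpow (by positivity) hN0.le, ← Real.rpow_natCast, ← Real.rpow_natCast,
                ← Real.rpow_mul (by norm_num), ← Real.rpow_mul (by norm_num), mul_comm (J : ℝ)]
            calc C * (2 ^ (19 / 20 : ℝ) * (2 ^ J * N) ^ (19 / 20 : ℝ)) * (1 / (2 ^ J * N))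
                = C * 2 ^ (19 / 20 : ℝ) * ((2 ^ J * N) ^ (19 / 20 : ℝ) * (1 / (2 ^ J * N))) := by
                  ring
              _ = _ := by rw [e2, e3]; ring

/-- the tail of the sum of reciprocals -/
theorem tail : ∃ C : ℝ, 0 < C ∧ ∀ (F : Finset ℤ), (∀ n ∈ F, n ∈ Function.periodicPts T) →
    ∀ N : ℝ, 1 ≤ N → (∀ n ∈ F, N ≤ |(n : ℝ)|) →
    ∑ n ∈ F, 1 / |(n : ℝ)| ≤ C * N ^ (-(1 / 20) : ℝ) := by
  obtain ⟨C, hC, h⟩ := tail_dyadic
  have hr0 : (0 : ℝ) ≤ (2 : ℝ) ^ (-(1 / 20) : ℝ) := by positivity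
  have hr1 : (2 : ℝ) ^ (-(1 / 20) : ℝ) < 1 :=
    Real.rpow_lt_one_of_one_lt_of_neg (by norm_num) (by norm_num)
  refine ⟨C * (1 - (2 : ℝ) ^ (-(1 / 20) : ℝ))⁻¹, by
    have : 0 < 1 - (2 : ℝ) ^ (-(1 / 20) : ℝ) := by linarith
    positivity, fun F hF N hN hge => ?_⟩
  obtain ⟨J, hJ⟩ : ∃ J : ℕ, ∀ n ∈ F, |(n : ℝ)| < 2 ^ J * N := by
    obtain ⟨J, hJ⟩ := pow_unbounded_of_one_lt (∑ n ∈ F, |(n : ℝ)|) (by norm_num : (1 : ℝ) < 2)
    refine ⟨J, fun n hn => ?_⟩
    have h1 : |(n : ℝ)| ≤ ∑ n ∈ F, |(n : ℝ)| :=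
      Finset.single_le_sum (f := fun n : ℤ => |(n : ℝ)|) (fun _ _ => abs_nonneg _) hn
    have h2 : (2 : ℝ) ^ J * 1 ≤ 2 ^ J * N := by gcongr
    linarith
  have h1 := h F hF N hN J hge hJ
  have h2 : ∑ j ∈ Finset.range J, ((2 : ℝ) ^ (-(1 / 20) : ℝ)) ^ j ≤
      (1 - (2 : ℝ) ^ (-(1 / 20) : ℝ))⁻¹ := by
    rw [← tsum_geometric_of_lt_one hr0 hr1]
    exact (summable_geometric_of_lt_one hr0 hr1).sum_le_tsum _ (fun _ _ => by positivity)
  calc _ ≤ _ := h1
    _ ≤ C * N ^ (-(1 / 20) : ℝ) * (1 - (2 : ℝ) ^ (-(1 / 20) : ℝ))⁻¹ := by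
        have : 0 < N := by linarith
        gcongr
    _ = _ := by ring

end Pool.Agent.helper90.CL
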