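import Mathlib
import Pool.Agent.helper90.CL.Tail

/-!
# Cycles of the 3x+1 map and the product formula
-/

set_option autoImplicit false

noncomputable section

namespace Pool.Agent.helper90.CL

open Pool.Agent.helper62.Col

/-- the cycle of a periodic integer as a finite set -/
def cyc (n : ℤ) : Finset ℤ :=
  (Finset.range (Function.minimalPeriod T n)).image fun i => T^[i] n

theorem inj_cyc (n : ℤ) : Set.InjOn (fun i => T^[i] n)
    ((Finset.range (Function.minimalPeriod T n) : Finset ℕ) : Set ℕ) := by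
  have h := Function.iterate_injOn_Iio_minimalPeriod (f := T) (x := n)
  intro i hi j hj hij
  apply h
  · simpa using hi
  · simpa using hj
  · exact hij

theorem card_cyc (n : ℤ) : (cyc n).card = Function.minimalPeriod T n := by
  unfold cyc
  rw [Finset.card_image_of_injOn (inj_cyc n), Finset.card_range]

theorem sum_cyc (n : ℤ) (g : ℤ → ℝ) :
    ∑ m ∈ cyc n, g m = ∑ i ∈ Finset.range (Function.minimalPeriod T n), g (T^[i] n) := by
  unfold cyc
  rw [Finset.sum_image (inj_cyc n)]

theorem coe_cyc {n : ℤ} (hn : n ∈ Function.periodicPts T) :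
    ((cyc n : Finset ℤ) : Set ℤ) = Set.range fun i : ℕ => T^[i] n := by
  have hp := Function.minimalPeriod_pos_of_mem_periodicPts hn
  ext m
  unfold cyc
  simp only [Finset.coe_image, Finset.coe_range, Set.mem_image, Set.mem_Iio, Set.mem_range]
  constructor
  · rintro ⟨i, _, h⟩
    exact ⟨i, h⟩
  · rintro ⟨i, h⟩
    refine ⟨i % Function.minimalPeriod T n, Nat.mod_lt _ hp, ?_⟩
    rw [Function.iterate_mod_minimalPeriod_eq, h]

theorem iter_periodic {n : ℤ} (hn : n ∈ Function.periodicPts T) (i : ℕ) :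
    T^[i] n ∈ Function.periodicPts T := iter_mem i hn

theorem mem_periodic_of_cyc {n : ℤ} (hn : n ∈ Function.periodicPts T) {m : ℤ} (hm : m ∈ cyc n) :
    m ∈ Function.periodicPts T := by
  have : m ∈ ((cyc n : Finset ℤ) : Set ℤ) := hm
  rw [coe_cyc hn] at this
  obtain ⟨i, rfl⟩ := this
  exact iter_periodic hn i

theorem T_ne_zero {m : ℤ} (hm : m ≠ 0) : T m ≠ 0 := by
  intro h
  by_cases h2 : m % 2 = 0
  · have := two_mul_T_even h2
    omega
  · have := two_mul_T_odd h2
    omega

theorem iter_ne_zero {m : ℤ} (hm : m ≠ 0) (i : ℕ) : T^[i] m ≠ 0 := by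
  induction i with
  | zero => simpa using hm
  | succ i ih => rw [Function.iterate_succ_apply']; exact T_ne_zero ih

/-- the additive correction at an odd integer -/
def eps (m : ℤ) : ℝ := if m % 2 = 0 then 0 else Real.log (1 + 1 / (3 * (m : ℝ)))

theorem abs_inv_le {m : ℤ} (hm : m ≠ 0) : |1 / (3 * (m : ℝ))| ≤ 1 / 3 := by
  have h1 : (1 : ℝ) ≤ |(m : ℝ)| := by
    rw [← Int.cast_abs]
    exact_mod_cast Int.one_le_abs hm
  rw [abs_div, abs_one, abs_mul, abs_of_pos (by norm_num : (0 : ℝ) < 3)]
  rw [div_le_div_iff₀ (by positivity) (by norm_num)]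
  linarith

theorem abs_eps_le {m : ℤ} (hm : m ≠ 0) : |eps m| ≤ 1 / (2 * |(m : ℝ)|) := by
  unfold eps
  have h1 : (1 : ℝ) ≤ |(m : ℝ)| := by
    rw [← Int.cast_abs]
    exact_mod_cast Int.one_le_abs hm
  split_ifs with h
  · rw [abs_zero]; positivity
  · set x : ℝ := 1 / (3 * (m : ℝ)) with hx
    have hx3 := abs_inv_le hm
    rw [← hx] at hx3
    have hxe : |x| = 1 / (3 * |(m : ℝ)|) := by
      rw [hx, abs_div, abs_one, abs_mul, abs_of_pos (by norm_num : (0 : ℝ) < 3)]
    have hpos : 0 < 1 + x := by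
      have := neg_abs_le x
      linarith
    have hup : Real.log (1 + x) ≤ |x| := by
      have := Real.log_le_sub_one_of_pos hpos
      have := le_abs_self x
      linarith
    have hlow : -(3 / 2 * |x|) ≤ Real.log (1 + x) := by
      have h2 := Real.one_sub_inv_le_log_of_pos hpos
      have h3 : -(3 / 2 * |x|) ≤ 1 - (1 + x)⁻¹ := by
        have h4 : 1 - (1 + x)⁻¹ = x / (1 + x) := by field_simp; ring
        rw [h4, le_div_iff₀ hpos]
        rcases abs_cases x with ⟨h5, h6⟩ | ⟨h5, h6⟩
        · rw [h5]; nlinarith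
        · rw [h5]; nlinarith
      linarith
    have h5 : 1 / (2 * |(m : ℝ)|) = 3 / 2 * |x| := by
      rw [hxe]; field_simp
    rw [h5, abs_le]
    constructor
    · exact hlow
    · have := abs_nonneg x
      linarith

theorem log_step {m : ℤ} (hm : m ≠ 0) :
    Real.log |(T m : ℝ)| = Real.log |(m : ℝ)| - Real.log 2 +
      (if m % 2 = 0 then 0 else Real.log 3) + eps m := by
  have hm' : (m : ℝ) ≠ 0 := by exact_mod_cast hm
  have hT : ((T m : ℤ) : ℝ) ≠ 0 := by exact_mod_cast T_ne_zero hm
  rw [Real.log_abs, Real.log_abs]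
  unfold eps
  split_ifs with h
  · have h1 : (2 : ℝ) * (T m : ℤ) = m := by exact_mod_cast two_mul_T_even h
    rw [← h1, Real.log_mul (by norm_num) hT]
    ring
  · have h1 : (2 : ℝ) * (T m : ℤ) = 3 * m + 1 := by exact_mod_cast two_mul_T_odd h
    have h2 : (3 : ℝ) * m + 1 = 3 * m * (1 + 1 / (3 * (m : ℝ))) := by field_simp
    have h3 : (1 + 1 / (3 * (m : ℝ))) ≠ 0 := by
      have h4 := abs_inv_le hm
      have h5 := neg_abs_le (1 / (3 * (m : ℝ)))
      intro h6
      linarith
    have h4 : Real.log (2 * (T m : ℤ)) = Real.log (3 * m * (1 + 1 / (3 * (m : ℝ)))) := by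
      rw [h1, h2]
    rw [Real.log_mul (by norm_num) hT, Real.log_mul (by positivity) h3,
      Real.log_mul (by norm_num) hm'] at h4
    linarith

/-- the number of odd elements of a cycle -/
def odds (n : ℤ) : ℕ := ((cyc n).filter fun m => ¬ m % 2 = 0).card

/-- the product formula -/
theorem formula {n : ℤ} (h0 : n ≠ 0) :
    (Function.minimalPeriod T n : ℝ) * Real.log 2 - (odds n : ℝ) * Real.log 3 =
      ∑ m ∈ cyc n, eps m := by
  set p := Function.minimalPeriod T n with hp
  have htel : ∑ i ∈ Finset.range p, (Real.log |(T^[i + 1] n : ℝ)| - Real.log |(T^[i] n : ℝ)|) = 0 := by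
    rw [Finset.sum_range_sub (fun i => Real.log |(T^[i] n : ℝ)|)]
    have : T^[p] n = n := Function.iterate_minimalPeriod
    rw [this]; simp
  have hstep : ∀ i ∈ Finset.range p,
      Real.log |(T^[i + 1] n : ℝ)| - Real.log |(T^[i] n : ℝ)| =
        - Real.log 2 + ((if (T^[i] n) % 2 = 0 then 0 else Real.log 3) + eps (T^[i] n)) := by
    intro i _
    have := log_step (iter_ne_zero h0 i)
    rw [Function.iterate_succ_apply', this]
    ring
  rw [Finset.sum_congr rfl hstep, Finset.sum_add_distrib, Finset.sum_add_distrib, Finset.sum_const,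
    Finset.card_range, nsmul_eq_mul] at htel
  have h1 : ∑ i ∈ Finset.range p, (if (T^[i] n) % 2 = 0 then (0 : ℝ) else Real.log 3) =
      (odds n : ℝ) * Real.log 3 := by
    have h2 := sum_cyc n (fun m => if m % 2 = 0 then (0 : ℝ) else Real.log 3)
    rw [← h2]
    unfold odds
    rw [Finset.card_filter]
    push_cast
    rw [Finset.sum_mul]
    apply Finset.sum_congr rfl
    intro m _
    split_ifs <;> simp_all
  rw [h1, ← sum_cyc n eps] at htel
  linarith

end Pool.Agent.helper90.CL
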