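import Mathlib
import Pool.Agent.helper90.CL.Cycle

/-!
# The sum over all cycles of `|p log 2 - k log 3|`
-/

set_option autoImplicit false

noncomputable section

namespace Pool.Agent.helper90.CL

open Pool.Agent.helper62.Col

/-- `c` is a cycle: the set of iterates of a periodic integer -/
def IsCycle (c : Set ℤ) : Prop :=
  ∃ n ∈ Function.periodicPts T, c = Set.range fun i : ℕ => T^[i] n

/-- distance from the logarithmic identity -/
def defect (c : Set ℤ) : ℝ :=
  |(c.ncard : ℝ) * Real.log 2 - ((c ∩ {m : ℤ | m % 2 = 1}).ncard : ℝ) * Real.log 3|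

theorem ncard_eq {n : ℤ} (hn : n ∈ Function.periodicPts T) :
    (Set.range fun i : ℕ => T^[i] n).ncard = Function.minimalPeriod T n := by
  rw [← coe_cyc hn, Set.ncard_coe_finset, card_cyc]

theorem odd_eq {n : ℤ} (hn : n ∈ Function.periodicPts T) :
    ((Set.range fun i : ℕ => T^[i] n) ∩ {m : ℤ | m % 2 = 1}).ncard = odds n := by
  rw [← coe_cyc hn]
  have : ((cyc n : Finset ℤ) : Set ℤ) ∩ {m : ℤ | m % 2 = 1} =
      (((cyc n).filter fun m => ¬ m % 2 = 0 : Finset ℤ) : Set ℤ) := by
    ext m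
    simp only [Set.mem_inter_iff, Finset.mem_coe, Set.mem_ofPred_eq, Finset.coe_filter]
    constructor
    · rintro ⟨h1, h2⟩; exact ⟨h1, by omega⟩
    · rintro ⟨h1, h2⟩; exact ⟨h1, by omega⟩
  rw [this, Set.ncard_coe_finset]
  rfl

theorem defect_eq {n : ℤ} (hn : n ∈ Function.periodicPts T) (h0 : n ≠ 0) :
    defect (Set.range fun i : ℕ => T^[i] n) = |∑ m ∈ cyc n, eps m| := by
  unfold defect
  rw [ncard_eq hn, odd_eq hn, formula h0]

theorem cyc_ne_zero {n : ℤ} (h0 : n ≠ 0) {m : ℤ} (hm : m ∈ cyc n) : m ≠ 0 := by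
  unfold cyc at hm
  rw [Finset.mem_image] at hm
  obtain ⟨i, _, rfl⟩ := hm
  exact iter_ne_zero h0 i

theorem defect_le {n : ℤ} (hn : n ∈ Function.periodicPts T) (h0 : n ≠ 0) :
    defect (Set.range fun i : ℕ => T^[i] n) ≤ 1 / 2 * ∑ m ∈ cyc n, 1 / |(m : ℝ)| := by
  rw [defect_eq hn h0]
  refine (Finset.abs_sum_le_sum_abs _ _).trans ?_
  rw [Finset.mul_sum]
  apply Finset.sum_le_sum
  intro m hm
  refine (abs_eps_le (cyc_ne_zero h0 hm)).trans_eq ?_
  rw [one_div, mul_inv, one_div, one_div]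

/-- two cycles that meet are equal -/
theorem orbit_eq {n m : ℤ} (hn : n ∈ Function.periodicPts T)
    (hm : m ∈ Set.range fun i : ℕ => T^[i] n) :
    (Set.range fun i : ℕ => T^[i] m) = Set.range fun i : ℕ => T^[i] n := by
  obtain ⟨i, rfl⟩ := hm
  have hp := Function.minimalPeriod_pos_of_mem_periodicPts hn
  set p := Function.minimalPeriod T n
  ext x
  simp only [Set.mem_range]
  constructor
  · rintro ⟨j, rfl⟩
    exact ⟨j + i, Function.iterate_add_apply T j i n⟩
  · rintro ⟨j, rfl⟩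
    refine ⟨j + (p * (i + 1) - i), ?_⟩
    have h1 : i ≤ p * (i + 1) := by nlinarith
    rw [← Function.iterate_add_apply]
    have h2 : j + (p * (i + 1) - i) + i = j + p * (i + 1) := by omega
    rw [h2, Function.iterate_add_apply]
    congr 1
    have h3 : Function.IsPeriodicPt T (p * (i + 1)) n :=
      (Function.isPeriodicPt_minimalPeriod T n).mul_const (i + 1)
    exact h3

/-- all finite sums of defects are bounded -/
theorem sum_bound : ∃ B : ℝ, 0 < B ∧ ∀ S : Finset {c : Set ℤ // IsCycle c},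
    ∑ c ∈ S, defect c.1 ≤ B := by
  obtain ⟨C, hC, htail⟩ := tail
  refine ⟨C + Real.log 2, by
    have := Real.log_pos (by norm_num : (1 : ℝ) < 2)
    positivity, fun S => ?_⟩
  classical
  -- representatives
  have hrep : ∀ c : {c : Set ℤ // IsCycle c}, ∃ n ∈ Function.periodicPts T,
      c.1 = Set.range fun i : ℕ => T^[i] n := fun c => c.2
  choose r hr1 hr2 using hrep
  rw [← Finset.sum_filter_add_sum_filter_not S (fun c => r c = 0)]
  have hz : ∑ c ∈ S.filter (fun c => r c = 0), defect c.1 ≤ Real.log 2 := by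
    have hT0 : ∀ i : ℕ, T^[i] 0 = 0 := by
      intro i
      induction i with
      | zero => rfl
      | succ i ih => rw [Function.iterate_succ_apply', ih]; rfl
    have hc0 : ∀ c ∈ S.filter (fun c => r c = 0), c.1 = {(0 : ℤ)} := by
      intro c hc
      have h1 := (Finset.mem_filter.1 hc).2
      rw [hr2 c, h1]
      ext x
      simp only [Set.mem_range, hT0, Set.mem_singleton_iff]
      constructor
      · rintro ⟨_, h⟩; exact h.symm
      · intro h; exact ⟨0, h.symm⟩
    have hcard : (S.filter (fun c => r c = 0)).card ≤ 1 := by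
      rw [Finset.card_le_one]
      intro a ha b hb
      exact Subtype.ext ((hc0 a ha).trans (hc0 b hb).symm)
    have hdef : ∀ c ∈ S.filter (fun c => r c = 0), defect c.1 ≤ Real.log 2 := by
      intro c hc
      rw [hc0 c hc]
      unfold defect
      have h1 : ({(0 : ℤ)} ∩ {m : ℤ | m % 2 = 1} : Set ℤ) = ∅ := by
        ext x
        simp only [Set.mem_inter_iff, Set.mem_singleton_iff, Set.mem_ofPred_eq,
          Set.mem_empty_iff_false, iff_false, not_and]
        rintro rfl
        norm_num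
      rw [h1, Set.ncard_singleton, Set.ncard_empty]
      have h2 := Real.log_pos (by norm_num : (1 : ℝ) < 2)
      simp [abs_of_pos h2]
    have h2 := Real.log_pos (by norm_num : (1 : ℝ) < 2)
    calc _ ≤ ∑ c ∈ S.filter (fun c => r c = 0), Real.log 2 := Finset.sum_le_sum hdef
      _ = ((S.filter (fun c => r c = 0)).card : ℝ) * Real.log 2 := by
          rw [Finset.sum_const, nsmul_eq_mul]
      _ ≤ 1 * Real.log 2 := by
          gcongr
          exact_mod_cast hcard
      _ = Real.log 2 := one_mul _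
  have hnz : ∑ c ∈ S.filter (fun c => ¬ r c = 0), defect c.1 ≤ C := by
    have hdisj : ∀ a ∈ S.filter (fun c => ¬ r c = 0), ∀ b ∈ S.filter (fun c => ¬ r c = 0),
        a ≠ b → Disjoint (cyc (r a)) (cyc (r b)) := by
      intro a _ b _ hab
      rw [Finset.disjoint_left]
      intro m hma hmb
      apply hab
      have h1 : m ∈ ((cyc (r a) : Finset ℤ) : Set ℤ) := hma
      have h2 : m ∈ ((cyc (r b) : Finset ℤ) : Set ℤ) := hmb
      rw [coe_cyc (hr1 a)] at h1
      rw [coe_cyc (hr1 b)] at h2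
      have h3 := orbit_eq (hr1 a) h1
      have h4 := orbit_eq (hr1 b) h2
      exact Subtype.ext (by rw [hr2 a, hr2 b, ← h3, ← h4])
    calc ∑ c ∈ S.filter (fun c => ¬ r c = 0), defect c.1
        ≤ ∑ c ∈ S.filter (fun c => ¬ r c = 0), 1 / 2 * ∑ m ∈ cyc (r c), 1 / |(m : ℝ)| := by
          apply Finset.sum_le_sum
          intro c hc
          have h1 := defect_le (hr1 c) (Finset.mem_filter.1 hc).2
          rw [← hr2 c] at h1
          exact h1
      _ = 1 / 2 * ∑ m ∈ (S.filter (fun c => ¬ r c = 0)).biUnion (fun c => cyc (r c)),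
            1 / |(m : ℝ)| := by
          rw [Finset.sum_biUnion hdisj, Finset.mul_sum]
      _ ≤ 1 / 2 * (C * (1 : ℝ) ^ (-(1 / 20) : ℝ)) := by
          apply mul_le_mul_of_nonneg_left _ (by norm_num)
          apply htail _ _ 1 le_rfl
          · intro m hm
            rw [Finset.mem_biUnion] at hm
            obtain ⟨c, hc, hm⟩ := hm
            rw [← Int.cast_abs]
            exact_mod_cast Int.one_le_abs (cyc_ne_zero (Finset.mem_filter.1 hc).2 hm)
          · intro m hm
            rw [Finset.mem_biUnion] at hm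
            obtain ⟨c, _, hm⟩ := hm
            exact mem_periodic_of_cyc (hr1 c) hm
      _ ≤ C := by rw [Real.one_rpow]; linarith
  linarith

theorem summable_defect : Summable fun c : {c : Set ℤ // IsCycle c} => defect c.1 := by
  obtain ⟨B, _, h⟩ := sum_bound
  exact summable_of_sum_le (fun c => abs_nonneg _) h

/-- distance to the nearest integer -/
def nint (x : ℝ) : ℝ := |x - round x|

theorem nint_le (x : ℝ) (k : ℤ) : nint x ≤ |x - k| := round_le x k

theorem log3_gt : 1 < Real.log 3 := by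
  rw [Real.lt_log_iff_exp_lt (by norm_num)]
  exact lt_trans Real.exp_one_lt_d9 (by norm_num)

theorem nint_le_defect (c : Set ℤ) :
    nint ((c.ncard : ℝ) * (Real.log 2 / Real.log 3)) ≤ defect c := by
  have h3 := log3_gt
  set k := ((c ∩ {m : ℤ | m % 2 = 1}).ncard : ℕ)
  have h1 := nint_le ((c.ncard : ℝ) * (Real.log 2 / Real.log 3)) (k : ℤ)
  refine h1.trans ?_
  have h2 : (c.ncard : ℝ) * (Real.log 2 / Real.log 3) - ((k : ℤ) : ℝ) =
      ((c.ncard : ℝ) * Real.log 2 - (k : ℝ) * Real.log 3) / Real.log 3 := by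
    push_cast
    field_simp
  rw [h2, abs_div, abs_of_pos (by linarith : 0 < Real.log 3)]
  apply div_le_self (abs_nonneg _) h3.le

/-- few cycles have a length far from the multiples -/
theorem few : ∃ B : ℝ, 0 < B ∧ ∀ η : ℝ, 0 < η →
    {c : Set ℤ | IsCycle c ∧ η ≤ nint ((c.ncard : ℝ) * (Real.log 2 / Real.log 3))}.Finite ∧
    ({c : Set ℤ | IsCycle c ∧ η ≤ nint ((c.ncard : ℝ) * (Real.log 2 / Real.log 3))}.ncard : ℝ) ≤
      B / η := by
  obtain ⟨B, hB, h⟩ := sum_bound
  refine ⟨B, hB, fun η hη => ?_⟩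
  set A := {c : Set ℤ | IsCycle c ∧ η ≤ nint ((c.ncard : ℝ) * (Real.log 2 / Real.log 3))} with hA
  have key : ∀ F : Finset (Set ℤ), (F : Set (Set ℤ)) ⊆ A → (F.card : ℝ) ≤ B / η := by
    intro F hF
    classical
    have hF1 : ∀ c ∈ F, IsCycle c := fun c hc => (hF hc).1
    have h1 := h (F.subtype IsCycle)
    have h2 : ∑ c ∈ F.subtype IsCycle, defect c.1 = ∑ c ∈ F, defect c := by
      rw [Finset.sum_subtype_eq_sum_filter, Finset.filter_true_of_mem hF1]
    rw [h2] at h1
    have h3 : ∑ _c ∈ F, η ≤ ∑ c ∈ F, defect c :=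
      Finset.sum_le_sum fun c hc => (hF hc).2.trans (nint_le_defect c)
    rw [Finset.sum_const, nsmul_eq_mul] at h3
    rw [le_div_iff₀ hη]
    linarith
  have hfin : A.Finite := by
    by_contra hinf
    obtain ⟨F, hF1, hF2⟩ := Set.Infinite.exists_subset_card_eq hinf (⌊B / η⌋₊ + 1)
    have h1 := key F hF1
    rw [hF2] at h1
    have h2 := Nat.lt_floor_add_one (B / η)
    push_cast at h1
    linarith
  refine ⟨hfin, ?_⟩
  have h1 := key hfin.toFinset (by simp)
  rwa [← Set.ncard_eq_toFinset_card A hfin] at h1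

/-- every cycle contains a small integer -/
theorem least : ∃ C : ℝ, 0 < C ∧ ∀ c : Set ℤ, IsCycle c → ∃ m ∈ c,
    |(m : ℝ)| * nint ((c.ncard : ℝ) * (Real.log 2 / Real.log 3)) ^ 20 ≤ C := by
  obtain ⟨C, hC, htail⟩ := tail
  refine ⟨(1 / 2 * C) ^ 20, by positivity, fun c hc => ?_⟩
  obtain ⟨n, hn, rfl⟩ := hc
  by_cases h0 : n = 0
  · refine ⟨n, ⟨0, rfl⟩, ?_⟩
    rw [h0]
    simp only [Int.cast_zero, abs_zero, zero_mul]
    positivity
  · have hne : (cyc n).Nonempty := by
      have h1 : n ∈ ((cyc n : Finset ℤ) : Set ℤ) := by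
        rw [coe_cyc hn]; exact ⟨0, rfl⟩
      exact ⟨n, h1⟩
    obtain ⟨m, hm, hmin⟩ := (cyc n).exists_min_image (fun m => |(m : ℝ)|) hne
    refine ⟨m, ?_, ?_⟩
    · rw [← coe_cyc hn]; exact hm
    · have hm1 : (1 : ℝ) ≤ |(m : ℝ)| := by
        rw [← Int.cast_abs]
        exact_mod_cast Int.one_le_abs (cyc_ne_zero h0 hm)
      have hm0 : (0 : ℝ) < |(m : ℝ)| := by linarith
      have h1 := htail (cyc n) (fun x hx => mem_periodic_of_cyc hn hx) _ hm1 hmin
      have h2 := defect_le hn h0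
      have h3 := nint_le_defect (Set.range fun i : ℕ => T^[i] n)
      set x := nint (((Set.range fun i : ℕ => T^[i] n).ncard : ℝ) *
        (Real.log 2 / Real.log 3)) with hx
      have hx0 : 0 ≤ x := abs_nonneg _
      have h4 : x ≤ 1 / 2 * C * |(m : ℝ)| ^ (-(1 / 20) : ℝ) := by
        calc x ≤ _ := h3
          _ ≤ _ := h2
          _ ≤ 1 / 2 * (C * |(m : ℝ)| ^ (-(1 / 20) : ℝ)) := by gcongr
          _ = _ := by ring
      have h5 : x ^ 20 ≤ (1 / 2 * C * |(m : ℝ)| ^ (-(1 / 20) : ℝ)) ^ 20 := by gcongr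
      have h6 : (|(m : ℝ)| ^ (-(1 / 20) : ℝ)) ^ 20 = |(m : ℝ)|⁻¹ := by
        rw [← Real.rpow_natCast, ← Real.rpow_mul hm0.le]
        norm_num
        rw [Real.rpow_neg_one]
      rw [mul_pow, h6] at h5
      calc |(m : ℝ)| * x ^ 20 ≤ |(m : ℝ)| * ((1 / 2 * C) ^ 20 * |(m : ℝ)|⁻¹) := by gcongr
        _ = (1 / 2 * C) ^ 20 := by field_simp

end Pool.Agent.helper90.CL
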