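import Mathlib
import Pool.Agent.helper90.CL.Sum
import Pool.Agent.helper94.LogForm

/-!
# The number of cycle lengths of the 3x+1 map
-/

set_option autoImplicit false

noncomputable section

namespace Pool.Agent.helper90.CL

open Pool.Agent.helper62.Col

theorem log3_lt : Real.log 3 < 2 := by
  rw [Real.log_lt_iff_lt_exp (by norm_num)]
  have h1 : (2.7 : ℝ) ^ 2 < Real.exp 1 ^ 2 := by
    have := Real.exp_one_gt_d9
    gcongr
    linarith
  have h2 : Real.exp 2 = Real.exp 1 ^ 2 := by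
    rw [← Real.exp_nat_mul]; norm_num
  rw [h2]
  linarith

/-- irrationality measure of `log 2 / log 3` -/
theorem measure : ∃ c : ℝ, 0 < c ∧ ∀ p : ℕ, 1 ≤ p → ∀ k : ℤ,
    c / (p : ℝ) ^ 23 ≤ |(p : ℝ) * (Real.log 2 / Real.log 3) - k| := by
  have hl := log3_gt
  have hl2 := log3_lt
  refine ⟨1 / (235 * 9 ^ 23 * 2), by positivity, fun p hp k => ?_⟩
  have hpR : (1 : ℝ) ≤ p := by exact_mod_cast hp
  have hp23 : (1 : ℝ) ≤ (p : ℝ) ^ 23 := one_le_pow₀ hpR
  have hsmall : 1 / (235 * 9 ^ 23 * 2) / (p : ℝ) ^ 23 ≤ (1 : ℝ) / 100 := by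
    rw [div_div, div_le_div_iff₀ (by positivity) (by norm_num)]
    nlinarith
  have hθ := theta_gt
  have hθ2 := theta_lt
  set θ := Real.log 2 / Real.log 3 with hθd
  by_cases h1 : 2 * k ≤ p
  · have h2 : (2 : ℝ) * k ≤ p := by exact_mod_cast h1
    have h3 : (p : ℝ) * (306 / 485) ≤ p * θ := by gcongr
    have h4 : 1 / 100 ≤ (p : ℝ) * θ - k := by linarith
    exact hsmall.trans (h4.trans (le_abs_self _))
  · by_cases h2 : (p : ℤ) < k
    · have h3 : (p : ℝ) + 1 ≤ k := by exact_mod_cast h2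
      have h4 : (p : ℝ) * θ ≤ p * 1 := by gcongr
      have h5 : 1 / 100 ≤ -((p : ℝ) * θ - k) := by linarith
      exact hsmall.trans (h5.trans (neg_le_abs _))
    · push Not at h1 h2
      obtain ⟨e, he⟩ : ∃ e : ℕ, (e : ℤ) = 2 * k - p := ⟨(2 * k - p).toNat, by omega⟩
      obtain ⟨o, ho⟩ : ∃ o : ℕ, (o : ℤ) = p - k := ⟨(p - k).toNat, by omega⟩
      have he1 : 1 ≤ e := by omega
      have h3 := Pool.Agent.helper94.log_form_lower (o := o) he1
      have heR : (e : ℝ) = 2 * k - p := by exact_mod_cast he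
      have hoR : (o : ℝ) = p - k := by exact_mod_cast ho
      rw [Real.log_div (by norm_num) (by norm_num), Real.log_div (by norm_num) (by norm_num)] at h3
      have h4 : Real.log 4 = 2 * Real.log 2 := by
        rw [show (4 : ℝ) = 2 ^ 2 by norm_num, Real.log_pow]; norm_num
      rw [h4] at h3
      have h5 : (e : ℝ) * (Real.log 3 - Real.log 2) - o * (2 * Real.log 2 - Real.log 3) =
          -(Real.log 3 * ((p : ℝ) * θ - k)) := by
        rw [heR, hoR, hθd]
        field_simp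
        ring
      rw [h5, abs_neg, abs_mul, abs_of_pos (by linarith : 0 < Real.log 3)] at h3
      have h6 : (e : ℝ) + o ≤ p := by
        have : (e : ℤ) + o ≤ p := by omega
        exact_mod_cast this
      have h7 : 1 / (235 * (9 * (p : ℝ)) ^ 23) ≤ 1 / (235 * (9 * ((e : ℝ) + o)) ^ 23) := by
        have : (1 : ℝ) ≤ e := by exact_mod_cast he1
        have : (0 : ℝ) ≤ o := by positivity
        apply one_div_le_one_div_of_le (by positivity)
        gcongr
      have h8 : 1 / (235 * (9 * (p : ℝ)) ^ 23) ≤ Real.log 3 * |(p : ℝ) * θ - k| := h7.trans h3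
      have h9 : Real.log 3 * |(p : ℝ) * θ - k| ≤ 2 * |(p : ℝ) * θ - k| := by gcongr
      have h10 : 1 / (235 * (9 * (p : ℝ)) ^ 23) = 2 * (1 / (235 * 9 ^ 23 * 2) / (p : ℝ) ^ 23) := by
        rw [mul_pow]; field_simp
      rw [h10] at h8
      linarith

/-- a set of naturals up to `X` with gaps at least `g` -/
theorem card_gap (F : Finset ℕ) (X g : ℝ) (hX : 0 ≤ X) (hg : 0 < g) (hF : ∀ p ∈ F, (p : ℝ) ≤ X)
    (hgap : ∀ p ∈ F, ∀ q ∈ F, p < q → g ≤ (q : ℝ) - p) : (F.card : ℝ) ≤ X / g + 1 := by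
  have hmono : ∀ p ∈ F, ∀ q ∈ F, p < q → ⌊(p : ℝ) / g⌋₊ < ⌊(q : ℝ) / g⌋₊ := by
    intro p hp q hq hpq
    have h1 := hgap p hp q hq hpq
    have h2 : (p : ℝ) / g + 1 ≤ q / g := by
      rw [div_add_one hg.ne', div_le_div_iff_of_pos_right hg]
      linarith
    have h3 : ⌊(p : ℝ) / g⌋₊ + 1 ≤ ⌊(q : ℝ) / g⌋₊ := by
      rw [← Nat.floor_add_one (by positivity)]
      exact Nat.floor_le_floor h2
    omega
  have hinj : Set.InjOn (fun p : ℕ => ⌊(p : ℝ) / g⌋₊) (F : Set ℕ) := by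
    intro p hp q hq hpq
    by_contra hne
    rcases lt_or_gt_of_ne hne with h | h
    · have := hmono p hp q hq h; simp only at hpq; omega
    · have := hmono q hq p hp h; simp only at hpq; omega
  have h1 : (F.image fun p : ℕ => ⌊(p : ℝ) / g⌋₊) ⊆ Finset.range (⌊X / g⌋₊ + 1) := by
    intro x hx
    rw [Finset.mem_image] at hx
    obtain ⟨p, hp, rfl⟩ := hx
    rw [Finset.mem_range, Nat.lt_add_one_iff]
    apply Nat.floor_le_floor
    have := hF p hp
    gcongr
  have h2 := Finset.card_le_card h1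
  rw [Finset.card_image_of_injOn hinj, Finset.card_range] at h2
  have h3 : ((⌊X / g⌋₊ : ℕ) : ℝ) ≤ X / g := Nat.floor_le (by positivity)
  have h4 : (F.card : ℝ) ≤ (⌊X / g⌋₊ : ℕ) + 1 := by exact_mod_cast h2
  linarith

/-- the lengths of cycles -/
def Lengths : Set ℕ := {p : ℕ | ∃ c : Set ℤ, IsCycle c ∧ c.ncard = p}

theorem length_pos {p : ℕ} (hp : p ∈ Lengths) : 1 ≤ p := by
  obtain ⟨c, ⟨n, hn, rfl⟩, rfl⟩ := hp
  rw [ncard_eq hn]
  exact Function.minimalPeriod_pos_of_mem_periodicPts hn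

theorem count_lengths : ∃ C : ℝ, 0 < C ∧ ∀ X : ℝ, 1 ≤ X →
    ({p : ℕ | p ∈ Lengths ∧ (p : ℝ) ≤ X}.ncard : ℝ) ≤ C * X ^ (23 / 24 : ℝ) := by
  obtain ⟨B, hB, hfew⟩ := few
  obtain ⟨c, hc, hm⟩ := measure
  set a : ℝ := (c / 2) ^ (1 / 23 : ℝ) with ha
  have ha0 : 0 < a := by positivity
  refine ⟨B + 1 / a + 1, by positivity, fun X hX => ?_⟩
  have hX0 : 0 < X := by linarith
  set η : ℝ := X ^ (-(23 / 24) : ℝ) with hη
  have hη0 : 0 < η := by positivity
  set S := {p : ℕ | p ∈ Lengths ∧ (p : ℝ) ≤ X} with hS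
  have hSfin : S.Finite := by
    apply (Set.finite_Iic ⌊X⌋₊).subset
    intro p hp
    exact Nat.le_floor hp.2
  classical
  set F := hSfin.toFinset with hF
  have hcardF : (S.ncard : ℝ) = F.card := by
    rw [Set.ncard_eq_toFinset_card S hSfin]
  rw [hcardF]
  have hsplit := Finset.card_filter_add_card_filter_not
    (s := F) (fun p : ℕ => η ≤ nint ((p : ℝ) * (Real.log 2 / Real.log 3)))
  have hsplitR : (F.card : ℝ) =
      ((F.filter fun p : ℕ => η ≤ nint ((p : ℝ) * (Real.log 2 / Real.log 3))).card : ℝ) +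
      ((F.filter fun p : ℕ => ¬ η ≤ nint ((p : ℝ) * (Real.log 2 / Real.log 3))).card : ℝ) := by
    exact_mod_cast hsplit.symm
  -- the far part
  have hA : ((F.filter fun p : ℕ => η ≤ nint ((p : ℝ) * (Real.log 2 / Real.log 3))).card : ℝ) ≤
      B / η := by
    obtain ⟨hfin, hcard⟩ := hfew η hη0
    refine le_trans ?_ hcard
    have hsub : ((F.filter fun p : ℕ => η ≤ nint ((p : ℝ) * (Real.log 2 / Real.log 3)) :
        Finset ℕ) : Set ℕ) ⊆ Set.ncard ''
          {c : Set ℤ | IsCycle c ∧ η ≤ nint ((c.ncard : ℝ) * (Real.log 2 / Real.log 3))} := by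
      intro p hp
      have hp1 := Finset.mem_filter.1 (Finset.mem_coe.1 hp)
      have hp2 : p ∈ S := by
        have := hp1.1
        rw [hF, Set.Finite.mem_toFinset] at this
        exact this
      obtain ⟨c, hc1, hc2⟩ := hp2.1
      refine ⟨c, ⟨hc1, ?_⟩, hc2⟩
      rw [hc2]
      exact hp1.2
    have h1 := Set.ncard_le_ncard hsub (hfin.image _)
    rw [Set.ncard_coe_finset] at h1
    have h2 := Set.ncard_image_le (f := Set.ncard) hfin
    exact_mod_cast h1.trans h2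
  -- the near part
  have hBp : ((F.filter fun p : ℕ => ¬ η ≤ nint ((p : ℝ) * (Real.log 2 / Real.log 3))).card : ℝ) ≤
      X / (a * X ^ (1 / 24 : ℝ)) + 1 := by
    apply card_gap _ _ _ hX0.le (by positivity)
    · intro p hp
      have hp1 := (Finset.mem_filter.1 hp).1
      rw [hF, Set.Finite.mem_toFinset] at hp1
      exact hp1.2
    · intro p hp q hq hpq
      have hp1 := (Finset.mem_filter.1 hp).2
      have hq1 := (Finset.mem_filter.1 hq).2
      push Not at hp1 hq1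
      set θ := Real.log 2 / Real.log 3
      obtain ⟨d, hd⟩ : ∃ d : ℕ, q = p + d := ⟨q - p, by omega⟩
      have hd1 : 1 ≤ d := by omega
      have h1 := hm d hd1 (round ((q : ℝ) * θ) - round ((p : ℝ) * θ))
      have hdR : (d : ℝ) = q - p := by rw [hd]; push_cast; ring
      have h2 : |(d : ℝ) * θ - ((round ((q : ℝ) * θ) - round ((p : ℝ) * θ) : ℤ) : ℝ)| ≤ 2 * η := by
        have h3 : (d : ℝ) * θ - ((round ((q : ℝ) * θ) - round ((p : ℝ) * θ) : ℤ) : ℝ) =
            ((q : ℝ) * θ - round ((q : ℝ) * θ)) - ((p : ℝ) * θ - round ((p : ℝ) * θ)) := by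
          rw [hdR]; push_cast; ring
        rw [h3]
        have h4 := abs_sub ((q : ℝ) * θ - round ((q : ℝ) * θ)) ((p : ℝ) * θ - round ((p : ℝ) * θ))
        unfold nint at hp1 hq1
        linarith
      have h3 : c / (d : ℝ) ^ 23 ≤ 2 * η := h1.trans h2
      have hd0 : (0 : ℝ) < d := by exact_mod_cast hd1
      rw [← hdR]
      have h4 : c / 2 * X ^ (23 / 24 : ℝ) ≤ (d : ℝ) ^ 23 := by
        rw [div_le_iff₀ (by positivity)] at h3
        have h5 : η * X ^ (23 / 24 : ℝ) = 1 := by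
          rw [hη, ← Real.rpow_add hX0]; norm_num
        have h6 : 0 < X ^ (23 / 24 : ℝ) := by positivity
        calc c / 2 * X ^ (23 / 24 : ℝ) ≤ (2 * η * (d : ℝ) ^ 23) / 2 * X ^ (23 / 24 : ℝ) := by gcongr
          _ = (η * X ^ (23 / 24 : ℝ)) * (d : ℝ) ^ 23 := by ring
          _ = (d : ℝ) ^ 23 := by rw [h5, one_mul]
      have h5 : (c / 2 * X ^ (23 / 24 : ℝ)) ^ (1 / 23 : ℝ) ≤ ((d : ℝ) ^ 23) ^ (1 / 23 : ℝ) := by
        gcongr
      have h6 : ((d : ℝ) ^ 23) ^ (1 / 23 : ℝ) = d := by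
        rw [← Real.rpow_natCast, ← Real.rpow_mul hd0.le]
        norm_num
      have h7 : (c / 2 * X ^ (23 / 24 : ℝ)) ^ (1 / 23 : ℝ) = a * X ^ (1 / 24 : ℝ) := by
        rw [Real.mul_rpow (by positivity) (by positivity), ← Real.rpow_mul hX0.le]
        norm_num [ha]
      rw [h6, h7] at h5
      exact h5
  have h1 : B / η = B * X ^ (23 / 24 : ℝ) := by
    rw [hη, Real.rpow_neg hX0.le]; field_simp
  have h2 : X / (a * X ^ (1 / 24 : ℝ)) = 1 / a * X ^ (23 / 24 : ℝ) := by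
    have h3 : X ^ (1 / 24 : ℝ) * X ^ (23 / 24 : ℝ) = X := by
      rw [← Real.rpow_add hX0]; norm_num
    rw [div_eq_iff (by positivity)]
    calc X = X ^ (1 / 24 : ℝ) * X ^ (23 / 24 : ℝ) := h3.symm
      _ = _ := by field_simp
  have h3 : 1 ≤ X ^ (23 / 24 : ℝ) := Real.one_le_rpow hX (by norm_num)
  rw [hsplitR]
  rw [h1] at hA
  rw [h2] at hBp
  calc _ ≤ B * X ^ (23 / 24 : ℝ) + (1 / a * X ^ (23 / 24 : ℝ) + 1) := add_le_add hA hBp
    _ ≤ B * X ^ (23 / 24 : ℝ) + (1 / a * X ^ (23 / 24 : ℝ) + X ^ (23 / 24 : ℝ)) := by gcongr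
    _ = _ := by ring

end Pool.Agent.helper90.CL
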