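import Mathlib
import Pool.Agent.helper90.CL.Length

/-!
# One-sided versions for cycles of positive and of negative integers
-/

set_option autoImplicit false

noncomputable section

namespace Pool.Agent.helper90.CL

open Pool.Agent.helper62.Col

theorem eps_nonneg {m : ℤ} (hm : 0 < m) : 0 ≤ eps m := by
  unfold eps
  split_ifs
  · exact le_rfl
  · apply Real.log_nonneg
    have : (0 : ℝ) < m := by exact_mod_cast hm
    have : (0 : ℝ) ≤ 1 / (3 * (m : ℝ)) := by positivity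
    linarith

theorem eps_nonpos {m : ℤ} (hm : m < 0) : eps m ≤ 0 := by
  unfold eps
  split_ifs
  · exact le_rfl
  · have h1 := abs_inv_le hm.ne
    have h2 := neg_abs_le (1 / (3 * (m : ℝ)))
    have h3 : (m : ℝ) < 0 := by exact_mod_cast hm
    have h4 : 1 / (3 * (m : ℝ)) ≤ 0 := by
      apply div_nonpos_of_nonneg_of_nonpos (by norm_num)
      linarith
    apply Real.log_nonpos <;> linarith

/-- the defect of a cycle controls the fractional part, with the right sign -/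
theorem signed {c : Set ℤ} (hc : IsCycle c) :
    ((∀ m ∈ c, 0 < m) → Int.fract ((c.ncard : ℝ) * (Real.log 2 / Real.log 3)) ≤ defect c) ∧
    ((∀ m ∈ c, m < 0) → Int.fract (-((c.ncard : ℝ) * (Real.log 2 / Real.log 3))) ≤ defect c) := by
  have h3 := log3_gt
  have h30 : 0 < Real.log 3 := by linarith
  obtain ⟨n, hn, rfl⟩ := hc
  set c := Set.range fun i : ℕ => T^[i] n with hcdef
  have hnc : n ∈ c := ⟨0, rfl⟩
  set k := (c ∩ {m : ℤ | m % 2 = 1}).ncard with hk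
  have hx : (c.ncard : ℝ) * (Real.log 2 / Real.log 3) - k =
      ((c.ncard : ℝ) * Real.log 2 - (k : ℝ) * Real.log 3) / Real.log 3 := by
    field_simp
  have hmem : ∀ m ∈ cyc n, m ∈ c := by
    intro m hm
    have : m ∈ ((cyc n : Finset ℤ) : Set ℤ) := hm
    rwa [coe_cyc hn] at this
  have hform : n ≠ 0 → (c.ncard : ℝ) * Real.log 2 - (k : ℝ) * Real.log 3 = ∑ m ∈ cyc n, eps m := by
    intro h0
    rw [hk, hcdef, ncard_eq hn, odd_eq hn, formula h0]
  have habs : |((c.ncard : ℝ) * Real.log 2 - (k : ℝ) * Real.log 3) / Real.log 3| ≤ defect c := by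
    rw [abs_div, abs_of_pos h30]
    exact div_le_self (abs_nonneg _) h3.le
  constructor
  · intro hpos
    have h0 : n ≠ 0 := (hpos n hnc).ne'
    have h1 : 0 ≤ (c.ncard : ℝ) * Real.log 2 - (k : ℝ) * Real.log 3 := by
      rw [hform h0]
      exact Finset.sum_nonneg fun m hm => eps_nonneg (hpos m (hmem m hm))
    have h2 : (0 : ℝ) ≤ (c.ncard : ℝ) * (Real.log 2 / Real.log 3) - k := by
      rw [hx]; positivity
    have h4 : (k : ℤ) ≤ ⌊(c.ncard : ℝ) * (Real.log 2 / Real.log 3)⌋ := by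
      rw [Int.le_floor]; push_cast; linarith
    have h5 : (k : ℝ) ≤ (⌊(c.ncard : ℝ) * (Real.log 2 / Real.log 3)⌋ : ℝ) := by exact_mod_cast h4
    calc Int.fract ((c.ncard : ℝ) * (Real.log 2 / Real.log 3))
        = (c.ncard : ℝ) * (Real.log 2 / Real.log 3) -
            ⌊(c.ncard : ℝ) * (Real.log 2 / Real.log 3)⌋ := rfl
      _ ≤ (c.ncard : ℝ) * (Real.log 2 / Real.log 3) - k := by linarith
      _ ≤ _ := by rw [hx]; exact (le_abs_self _).trans habs
  · intro hneg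
    have h0 : n ≠ 0 := (hneg n hnc).ne
    have h1 : (c.ncard : ℝ) * Real.log 2 - (k : ℝ) * Real.log 3 ≤ 0 := by
      rw [hform h0]
      exact Finset.sum_nonpos fun m hm => eps_nonpos (hneg m (hmem m hm))
    have h2 : (c.ncard : ℝ) * (Real.log 2 / Real.log 3) - k ≤ 0 := by
      rw [hx]; exact div_nonpos_of_nonpos_of_nonneg h1 h30.le
    have h4 : (-(k : ℤ)) ≤ ⌊-((c.ncard : ℝ) * (Real.log 2 / Real.log 3))⌋ := by
      rw [Int.le_floor]; push_cast; linarith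
    have h5 : (-(k : ℝ)) ≤ (⌊-((c.ncard : ℝ) * (Real.log 2 / Real.log 3))⌋ : ℝ) := by
      exact_mod_cast h4
    calc Int.fract (-((c.ncard : ℝ) * (Real.log 2 / Real.log 3)))
        = -((c.ncard : ℝ) * (Real.log 2 / Real.log 3)) -
            ⌊-((c.ncard : ℝ) * (Real.log 2 / Real.log 3))⌋ := rfl
      _ ≤ -((c.ncard : ℝ) * (Real.log 2 / Real.log 3) - k) := by linarith
      _ ≤ _ := by rw [hx]; exact (neg_le_abs _).trans habs

/-- a nonnegative function of cycles that is at most the defect exceeds `η` at most `B / η` times -/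
theorem few_of_le : ∃ B : ℝ, 0 < B ∧ ∀ (P : Set ℤ → Prop) (g : Set ℤ → ℝ),
    (∀ c, IsCycle c → P c → g c ≤ defect c) → ∀ η : ℝ, 0 < η →
    {c : Set ℤ | IsCycle c ∧ P c ∧ η ≤ g c}.Finite ∧
    ({c : Set ℤ | IsCycle c ∧ P c ∧ η ≤ g c}.ncard : ℝ) ≤ B / η := by
  obtain ⟨B, hB, h⟩ := sum_bound
  refine ⟨B, hB, fun P g hg η hη => ?_⟩
  set A := {c : Set ℤ | IsCycle c ∧ P c ∧ η ≤ g c} with hA
  have key : ∀ F : Finset (Set ℤ), (F : Set (Set ℤ)) ⊆ A → (F.card : ℝ) ≤ B / η := by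
    intro F hF
    classical
    have hF1 : ∀ c ∈ F, IsCycle c := fun c hc => (hF hc).1
    have h1 := h (F.subtype IsCycle)
    have h2 : ∑ c ∈ F.subtype IsCycle, defect c.1 = ∑ c ∈ F, defect c := by
      rw [Finset.sum_subtype_eq_sum_filter, Finset.filter_true_of_mem hF1]
    rw [h2] at h1
    have h3 : ∑ _c ∈ F, η ≤ ∑ c ∈ F, defect c :=
      Finset.sum_le_sum fun c hc => (hF hc).2.2.trans (hg c (hF hc).1 (hF hc).2.1)
    rw [Finset.sum_const, nsmul_eq_mul] at h3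
    rw [le_div_iff₀ hη]
    linarith
  have hfin : A.Finite := by
    by_contra hinf
    obtain ⟨F, hF1, hF2⟩ := Set.Infinite.exists_subset_card_eq hinf (⌊B / η⌋₊ + 1)
    have h1 := key F hF1
    rw [hF2] at h1
    have h2 := Nat.lt_floor_add_one (B / η)
    push_cast at h1
    linarith
  refine ⟨hfin, ?_⟩
  have h1 := key hfin.toFinset (by simp)
  rwa [← Set.ncard_eq_toFinset_card A hfin] at h1

/-- every nonzero cycle contains an integer bounded in terms of the defect -/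
theorem least_of_le : ∃ C : ℝ, 0 < C ∧ ∀ c : Set ℤ, IsCycle c → (0 : ℤ) ∉ c →
    ∀ x : ℝ, 0 ≤ x → x ≤ defect c → ∃ m ∈ c, |(m : ℝ)| * x ^ 20 ≤ C := by
  obtain ⟨C, hC, htail⟩ := tail
  refine ⟨(1 / 2 * C) ^ 20, by positivity, fun c hc h00 x hx0 hx => ?_⟩
  obtain ⟨n, hn, rfl⟩ := hc
  have h0 : n ≠ 0 := by
    rintro rfl
    exact h00 ⟨0, rfl⟩
  have hne : (cyc n).Nonempty := by
    have h1 : n ∈ ((cyc n : Finset ℤ) : Set ℤ) := by
      rw [coe_cyc hn]; exact ⟨0, rfl⟩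
    exact ⟨n, h1⟩
  obtain ⟨m, hm, hmin⟩ := (cyc n).exists_min_image (fun m => |(m : ℝ)|) hne
  refine ⟨m, ?_, ?_⟩
  · rw [← coe_cyc hn]; exact hm
  · have hm1 : (1 : ℝ) ≤ |(m : ℝ)| := by
      rw [← Int.cast_abs]
      exact_mod_cast Int.one_le_abs (cyc_ne_zero h0 hm)
    have hm0 : (0 : ℝ) < |(m : ℝ)| := by linarith
    have h1 := htail (cyc n) (fun x hx => mem_periodic_of_cyc hn hx) _ hm1 hmin
    have h2 := defect_le hn h0
    have h4 : x ≤ 1 / 2 * C * |(m : ℝ)| ^ (-(1 / 20) : ℝ) := by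
      calc x ≤ _ := hx
        _ ≤ _ := h2
        _ ≤ 1 / 2 * (C * |(m : ℝ)| ^ (-(1 / 20) : ℝ)) := by gcongr
        _ = _ := by ring
    have h5 : x ^ 20 ≤ (1 / 2 * C * |(m : ℝ)| ^ (-(1 / 20) : ℝ)) ^ 20 := by gcongr
    have h6 : (|(m : ℝ)| ^ (-(1 / 20) : ℝ)) ^ 20 = |(m : ℝ)|⁻¹ := by
      rw [← Real.rpow_natCast, ← Real.rpow_mul hm0.le]
      norm_num
      rw [Real.rpow_neg_one]
    rw [mul_pow, h6] at h5
    calc |(m : ℝ)| * x ^ 20 ≤ |(m : ℝ)| * ((1 / 2 * C) ^ 20 * |(m : ℝ)|⁻¹) := by gcongr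
      _ = (1 / 2 * C) ^ 20 := by field_simp

end Pool.Agent.helper90.CL
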